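import Mathlib

/-!
# Definitions for `MP_4d264a_co.UnboundedGap`

The Z-domination game and the LL-domination game on a simple graph, and their lengths under
optimal play with Dominator moving first.
-/

set_option autoImplicit false

namespace Pool.Agent.Results.MP_4d264a_co.UnboundedGap

variable {V : Type}

/-- In the Z-domination game, after the moves in the list `h` have been played, the vertex `v` is
a legal move iff some neighbour `w` of `v` lies in no closed neighbourhood of a vertex of `h`. -/
def zLegal (G : SimpleGraph V) (h : List V) (v : V) : Prop :=
  ∃ w, G.Adj v w ∧ ∀ y ∈ h, ¬ (w = y ∨ G.Adj y w)

/-- In the LL-domination game, after the moves in the list `h` have been played, the vertex `v` is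
a legal move iff some vertex `w` of the closed neighbourhood of `v` lies in no open neighbourhood
of a vertex of `h`. -/
def llLegal (G : SimpleGraph V) (h : List V) (v : V) : Prop :=
  ∃ w, (w = v ∨ G.Adj v w) ∧ ∀ y ∈ h, ¬ G.Adj y w

/-- `Forces legal m b h`: after the moves in the list `h`, with Dominator to move if `b = true` and
Staller to move if `b = false`, Dominator can make sure that the game ends (no legal move is left)
after at most `m` further moves. -/
def Forces (legal : List V → V → Prop) : ℕ → Bool → List V → Prop
  | 0, _, h => ∀ v, ¬ legal h v
  | m + 1, true, h => (∀ v, ¬ legal h v) ∨ ∃ v, legal h v ∧ Forces legal m false (v :: h)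
  | m + 1, false, h => ∀ v, legal h v → Forces legal m true (v :: h)

/-- The number of moves of the Z-domination game under optimal play, Dominator moving first. -/
noncomputable def gammaZg (G : SimpleGraph V) : ℕ := sInf {m | Forces (zLegal G) m true []}

/-- The number of moves of the LL-domination game under optimal play, Dominator moving first. -/
noncomputable def gammaLLg (G : SimpleGraph V) : ℕ := sInf {m | Forces (llLegal G) m true []}

end Pool.Agent.Results.MP_4d264a_co.UnboundedGap
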