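import Mathlib
import Pool.Agent.H44.ZLL.Defs

/-!
# The LL-domination game number is not bounded by twice the Z-domination game number plus one

For every `k` we give a connected graph `G` with `γ_Zg(G) ≤ 2 k + 1` and `γ_LLg(G) ≥ 5 k + 1`.
For `k = 3` this refutes `γ_LLg(G) ≤ 2 γ_Zg(G) + 1`, and the difference `γ_LLg - 2 γ_Zg` is unbounded.

The graph has a vertex `u` with a pendant neighbour `l`, and `k` copies of a gadget.  The gadget is a
four-cycle `c 0, c 1, c 2, c 3` and a vertex `x`, where `x` and `c j` are joined through a vertex `t j`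
that is also adjacent to `u`.
-/

set_option autoImplicit false

namespace Pool.H44.ZLL

open Pool.Agent.Results.MP_4d264a_co.UnboundedGap

variable {V : Type}

/-! ### The graph -/

/-- The vertices. -/
inductive Vt (k : ℕ) : Type
  | u : Vt k
  | l : Vt k
  | c (i : Fin k) (j : Fin 4) : Vt k
  | t (i : Fin k) (j : Fin 4) : Vt k
  | x (i : Fin k) : Vt k
  deriving DecidableEq, Fintype

open Vt

/-- The adjacency relation. -/
def adj {k : ℕ} : Vt k → Vt k → Prop
  | u, l => True
  | l, u => True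
  | u, t _ _ => True
  | t _ _, u => True
  | t i j, c i' j' => i = i' ∧ j = j'
  | c i j, t i' j' => i = i' ∧ j = j'
  | t i _, x i' => i = i'
  | x i, t i' _ => i = i'
  | c i j, c i' j' => i = i' ∧ (j' = j + 1 ∨ j = j' + 1)
  | _, _ => False

/-- The graph. -/
def Gr (k : ℕ) : SimpleGraph (Vt k) where
  Adj := adj
  symm := ⟨by
    intro a b h
    cases a <;> cases b <;> simp_all [adj]
    tauto⟩
  loopless := ⟨by
    intro a h
    cases a <;> simp_all [adj]⟩

/-! ### The potential of a gadget -/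

/-- The potential: `a j` says that `c j` is uncovered and `b` that `x` is uncovered. -/
def phi (a : Fin 4 → Bool) (b : Bool) : ℕ :=
  match (a 0).toNat + (a 1).toNat + (a 2).toNat + (a 3).toNat, b with
  | 0, false => 0
  | 1, false => 2
  | 2, false => 2
  | _, false => 3
  | 0, true => 2
  | 1, true => 2
  | 2, true => 4
  | 3, true => 4
  | _, true => 5

/-- The gadget allows a harmless move. -/
def harmless (a : Fin 4 → Bool) (b : Bool) : Bool :=
  b || (a 0 && !a 1 && !a 3) || (a 1 && !a 2 && !a 0) || (a 2 && !a 3 && !a 1) ||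
    (a 3 && !a 0 && !a 2)

/-- The effect of `c j`. -/
def mc (a : Fin 4 → Bool) (j : Fin 4) : Fin 4 → Bool :=
  fun j' => a j' && !(decide (j' = j + 1 ∨ j = j' + 1))

/-- The effect of `t j`. -/
def mt (a : Fin 4 → Bool) (j : Fin 4) : Fin 4 → Bool :=
  fun j' => a j' && !(decide (j' = j))

lemma phi_mc : ∀ (a : Fin 4 → Bool) (b : Bool) (j : Fin 4), phi a b ≤ phi (mc a j) b + 2 := by
  decide

lemma phi_mt : ∀ (a : Fin 4 → Bool) (b : Bool) (j : Fin 4),
    phi a b ≤ phi (mt a j) false + 2 := by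
  decide

lemma phi_mc' : ∀ (a : Fin 4 → Bool) (b : Bool) (j : Fin 4), harmless a b = false →
    phi a b ≤ phi (mc a j) b + 1 := by
  decide

lemma phi_mt' : ∀ (a : Fin 4 → Bool) (b : Bool) (j : Fin 4), harmless a b = false →
    phi a b ≤ phi (mt a j) false + 1 := by
  decide

lemma phi_big : ∀ (a : Fin 4 → Bool) (b : Bool), harmless a b = false → 3 ≤ phi a b →
    ∃ j, a j = true ∧ harmless (mt a j) false = false ∧ 0 < phi (mt a j) false ∧
      phi a b ≤ phi (mt a j) false + 1 := by
  decide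

lemma phi_small : ∀ (a : Fin 4 → Bool) (b : Bool), harmless a b = false → 0 < phi a b →
    phi a b < 3 → ∃ j, a j = true ∧ phi a b ≤ phi (mt a j) false := by
  decide

lemma harmless_cases : ∀ (a : Fin 4 → Bool) (b : Bool), harmless a b = true →
    b = true ∨ ∃ j, a j = true ∧ mc a j = a := by
  decide

/-! ### Covered vertices -/

/-- `w` lies in the open neighbourhood of a played vertex. -/
def cov {k : ℕ} (h : List (Vt k)) (w : Vt k) : Prop := ∃ y ∈ h, adj y w

lemma cov_cons {k : ℕ} (v : Vt k) (h : List (Vt k)) (w : Vt k) :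
    cov (v :: h) w ↔ adj v w ∨ cov h w := by
  simp [cov]

open Classical in
/-- The uncovered vertices among the `c i j`. -/
noncomputable def ca {k : ℕ} (h : List (Vt k)) (i : Fin k) : Fin 4 → Bool :=
  fun j => decide (¬ cov h (c i j))

open Classical in
/-- Is `x i` uncovered? -/
noncomputable def cx {k : ℕ} (h : List (Vt k)) (i : Fin k) : Bool := decide (¬ cov h (x i))

open Classical in
/-- The potential of the pendant vertex. -/
noncomputable def pl {k : ℕ} (h : List (Vt k)) : ℕ := if cov h l then 0 else 2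

/-- The potential of a position. -/
noncomputable def Phi {k : ℕ} (h : List (Vt k)) : ℕ := ∑ i, phi (ca h i) (cx h i) + pl h

lemma ca_c {k : ℕ} (h : List (Vt k)) (i : Fin k) (j : Fin 4) :
    ca (c i j :: h) i = mc (ca h i) j := by
  funext j'
  have hc : cov (c i j :: h) (c i j') ↔ (j' = j + 1 ∨ j = j' + 1) ∨ cov h (c i j') := by
    rw [cov_cons]; simp [adj]
  by_cases h1 : cov h (c i j') <;> by_cases h2 : (j' = j + 1 ∨ j = j' + 1) <;>
    simp only [ca, mc, hc, h1, h2] <;> simp

lemma ca_t {k : ℕ} (h : List (Vt k)) (i : Fin k) (j : Fin 4) :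
    ca (t i j :: h) i = mt (ca h i) j := by
  funext j'
  have hc : cov (t i j :: h) (c i j') ↔ j' = j ∨ cov h (c i j') := by
    rw [cov_cons]; simp [adj, eq_comm]
  by_cases h2 : j' = j
  · subst h2
    have h3 := hc.2 (Or.inl rfl)
    simp [ca, mt, h3]
  · have h3 : cov (t i j :: h) (c i j') ↔ cov h (c i j') := by rw [hc]; simp [h2]
    by_cases h1 : cov h (c i j') <;> simp only [ca, mt, h3, h1, h2] <;> simp

lemma ca_c_ne {k : ℕ} (h : List (Vt k)) {i i' : Fin k} (hi : i' ≠ i) (j : Fin 4) :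
    ca (c i j :: h) i' = ca h i' := by
  funext j'
  simp [ca, cov_cons, adj, hi.symm]

lemma ca_t_ne {k : ℕ} (h : List (Vt k)) {i i' : Fin k} (hi : i' ≠ i) (j : Fin 4) :
    ca (t i j :: h) i' = ca h i' := by
  funext j'
  simp [ca, cov_cons, adj, hi.symm]

lemma ca_u {k : ℕ} (h : List (Vt k)) (i : Fin k) : ca (u :: h) i = ca h i := by
  funext j'; simp [ca, cov_cons, adj]

lemma ca_l {k : ℕ} (h : List (Vt k)) (i : Fin k) : ca (l :: h) i = ca h i := by
  funext j'; simp [ca, cov_cons, adj]

lemma ca_x {k : ℕ} (h : List (Vt k)) (i i' : Fin k) : ca (x i' :: h) i = ca h i := by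
  funext j'; simp [ca, cov_cons, adj]

lemma cx_c {k : ℕ} (h : List (Vt k)) (i i' : Fin k) (j : Fin 4) :
    cx (c i' j :: h) i = cx h i := by
  simp [cx, cov_cons, adj]

lemma cx_t {k : ℕ} (h : List (Vt k)) (i : Fin k) (j : Fin 4) : cx (t i j :: h) i = false := by
  simp [cx, cov_cons, adj]

lemma cx_t_ne {k : ℕ} (h : List (Vt k)) {i i' : Fin k} (hi : i' ≠ i) (j : Fin 4) :
    cx (t i j :: h) i' = cx h i' := by
  simp [cx, cov_cons, adj, hi.symm]

lemma cx_u {k : ℕ} (h : List (Vt k)) (i : Fin k) : cx (u :: h) i = cx h i := by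
  simp [cx, cov_cons, adj]

lemma cx_l {k : ℕ} (h : List (Vt k)) (i : Fin k) : cx (l :: h) i = cx h i := by
  simp [cx, cov_cons, adj]

lemma cx_x {k : ℕ} (h : List (Vt k)) (i i' : Fin k) : cx (x i' :: h) i = cx h i := by
  simp [cx, cov_cons, adj]

lemma pl_u {k : ℕ} (h : List (Vt k)) : pl (u :: h) = 0 := by
  simp [pl, cov_cons, adj]

lemma pl_ne {k : ℕ} (h : List (Vt k)) {v : Vt k} (hv : v ≠ u) : pl (v :: h) = pl h := by
  have hc : cov (v :: h) l ↔ cov h l := by
    rw [cov_cons]
    cases v <;> simp_all [adj]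
  unfold pl
  by_cases h1 : cov h l
  · rw [if_pos h1, if_pos (hc.2 h1)]
  · rw [if_neg h1, if_neg (fun h2 => h1 (hc.1 h2))]

lemma pl_le {k : ℕ} (h : List (Vt k)) : pl h ≤ 2 := by
  unfold pl; split_ifs <;> simp

/-- A sum over the gadgets changes only at one place. -/
lemma sum_le_add {k : ℕ} (f g : Fin k → ℕ) (i : Fin k) (d : ℕ) (h1 : f i ≤ g i + d)
    (h2 : ∀ i', i' ≠ i → f i' = g i') : ∑ i', f i' ≤ ∑ i', g i' + d := by
  rw [← Finset.add_sum_erase _ f (Finset.mem_univ i), ← Finset.add_sum_erase _ g (Finset.mem_univ i)]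
  have : ∑ i' ∈ Finset.univ.erase i, f i' = ∑ i' ∈ Finset.univ.erase i, g i' :=
    Finset.sum_congr rfl fun i' hi' => h2 i' (Finset.ne_of_mem_erase hi')
  omega

/-- Every move lowers the potential by at most two. -/
lemma Phi_le_add_two {k : ℕ} (h : List (Vt k)) (v : Vt k) : Phi h ≤ Phi (v :: h) + 2 := by
  cases v with
  | u =>
    have := pl_le h
    simp only [Phi, ca_u, cx_u]
    omega
  | l => simp only [Phi, ca_l, cx_l, pl_ne h (show (l : Vt k) ≠ u by simp)]; omega
  | x i => simp only [Phi, ca_x, cx_x, pl_ne h (show (x i : Vt k) ≠ u by simp)]; omega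
  | c i j =>
    have := sum_le_add (fun i' => phi (ca h i') (cx h i'))
      (fun i' => phi (ca (c i j :: h) i') (cx (c i j :: h) i')) i 2
      (by simp only [ca_c, cx_c]; exact phi_mc _ _ _)
      (fun i' hi' => by simp only [ca_c_ne h hi', cx_c])
    simp only [Phi, pl_ne h (show (c i j : Vt k) ≠ u by simp)]
    omega
  | t i j =>
    have := sum_le_add (fun i' => phi (ca h i') (cx h i'))
      (fun i' => phi (ca (t i j :: h) i') (cx (t i j :: h) i')) i 2
      (by simp only [ca_t, cx_t]; exact phi_mt _ _ _)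
      (fun i' hi' => by simp only [ca_t_ne h hi', cx_t_ne h hi'])
    simp only [Phi, pl_ne h (show (t i j : Vt k) ≠ u by simp)]
    omega

/-- There is no harmless move. -/
def Tight {k : ℕ} (h : List (Vt k)) : Prop :=
  cov h l ∧ ∀ i, harmless (ca h i) (cx h i) = false

/-- Without harmless moves, every move lowers the potential by at most one. -/
lemma Phi_le_add_one {k : ℕ} (h : List (Vt k)) (ht : Tight h) (v : Vt k) :
    Phi h ≤ Phi (v :: h) + 1 := by
  have hl : pl h = 0 := by simp [pl, ht.1]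
  cases v with
  | u => simp only [Phi, ca_u, cx_u, hl]; omega
  | l => simp only [Phi, ca_l, cx_l, hl]; omega
  | x i => simp only [Phi, ca_x, cx_x, hl]; omega
  | c i j =>
    have := sum_le_add (fun i' => phi (ca h i') (cx h i'))
      (fun i' => phi (ca (c i j :: h) i') (cx (c i j :: h) i')) i 1
      (by simp only [ca_c, cx_c]; exact phi_mc' _ _ _ (ht.2 i))
      (fun i' hi' => by simp only [ca_c_ne h hi', cx_c])
    simp only [Phi, hl]
    omega
  | t i j =>
    have := sum_le_add (fun i' => phi (ca h i') (cx h i'))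
      (fun i' => phi (ca (t i j :: h) i') (cx (t i j :: h) i')) i 1
      (by simp only [ca_t, cx_t]; exact phi_mt' _ _ _ (ht.2 i))
      (fun i' hi' => by simp only [ca_t_ne h hi', cx_t_ne h hi'])
    simp only [Phi, hl]
    omega

lemma legal_of_not_cov {k : ℕ} {h : List (Vt k)} {v : Vt k} (hv : ¬ cov h v) :
    llLegal (Gr k) h v :=
  ⟨v, Or.inl rfl, fun y hy hadj => hv ⟨y, hy, hadj⟩⟩

/-- If there is a harmless move, Staller has a legal move that keeps the potential. -/
lemma exists_harmless {k : ℕ} (h : List (Vt k)) (ht : ¬ Tight h) :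
    ∃ v, llLegal (Gr k) h v ∧ Phi (v :: h) = Phi h := by
  by_cases hl : cov h l
  · have : ∃ i, harmless (ca h i) (cx h i) = true := by
      by_contra hcon
      push Not at hcon
      exact ht ⟨hl, fun i => by simpa using hcon i⟩
    obtain ⟨i, hi⟩ := this
    rcases harmless_cases _ _ hi with hb | ⟨j, hj, hmc⟩
    · refine ⟨x i, legal_of_not_cov (by simpa [cx] using hb), ?_⟩
      simp only [Phi, ca_x, cx_x, pl_ne h (show (x i : Vt k) ≠ u by simp)]
    · refine ⟨c i j, legal_of_not_cov (by simpa [ca] using hj), ?_⟩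
      have hall : ∀ i', ca (c i j :: h) i' = ca h i' := by
        intro i'
        by_cases hi' : i' = i
        · subst hi'; rw [ca_c, hmc]
        · exact ca_c_ne h hi' j
      simp only [Phi, hall, cx_c, pl_ne h (show (c i j : Vt k) ≠ u by simp)]
  · refine ⟨l, legal_of_not_cov hl, ?_⟩
    simp only [Phi, ca_l, cx_l, pl_ne h (show (l : Vt k) ≠ u by simp)]

lemma exists_legal_of_Phi_pos {k : ℕ} (h : List (Vt k)) (hpos : 0 < Phi h) :
    ∃ v, llLegal (Gr k) h v := by
  by_contra hcon
  push Not at hcon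
  have hcov : ∀ w, cov h w := fun w => by
    by_contra hw
    exact hcon w (legal_of_not_cov hw)
  have : Phi h = 0 := by
    have h1 : ∀ i, ca h i = fun _ => false := fun i => by funext j; simp [ca, hcov]
    have h2 : ∀ i, cx h i = false := fun i => by simp [cx, hcov]
    simp only [Phi, h1, h2, pl, hcov]
    simp [phi]
  omega

/-- In a tight position with positive potential, Staller has a legal move to a tight position with
positive potential that lowers the potential by at most one, or a legal move that keeps it. -/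
lemma exists_tight_move {k : ℕ} (h : List (Vt k)) (ht : Tight h) (hpos : 0 < Phi h) :
    ∃ v, llLegal (Gr k) h v ∧
      (Phi h ≤ Phi (v :: h) ∨ (Tight (v :: h) ∧ 0 < Phi (v :: h) ∧ Phi h ≤ Phi (v :: h) + 1)) := by
  have hl : pl h = 0 := by simp [pl, ht.1]
  by_cases hbig : ∃ i, 3 ≤ phi (ca h i) (cx h i)
  · obtain ⟨i, hi⟩ := hbig
    obtain ⟨j, hj1, hj2, hj3, hj4⟩ := phi_big _ _ (ht.2 i) hi
    refine ⟨t i j, ⟨c i j, Or.inr (by simp [Gr, adj]), ?_⟩, Or.inr ⟨⟨?_, ?_⟩, ?_, ?_⟩⟩
    · have : ¬ cov h (c i j) := by simpa [ca] using hj1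
      exact fun y hy hadj => this ⟨y, hy, hadj⟩
    · rw [cov_cons]; exact Or.inr ht.1
    · intro i'
      by_cases hi' : i' = i
      · subst hi'; rw [ca_t, cx_t]; exact hj2
      · rw [ca_t_ne h hi', cx_t_ne h hi']; exact ht.2 i'
    · have h1 := Finset.single_le_sum (f := fun i' => phi (ca (t i j :: h) i') (cx (t i j :: h) i'))
        (fun _ _ => Nat.zero_le _) (Finset.mem_univ i)
      simp only [ca_t, cx_t] at h1
      simp only [Phi]
      omega
    · exact Phi_le_add_one h ht _
  · push Not at hbig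
    have : ∃ i, 0 < phi (ca h i) (cx h i) := by
      by_contra hcon
      push Not at hcon
      have : Phi h = 0 := by
        simp only [Phi, hl, add_zero]
        exact Finset.sum_eq_zero fun i _ => Nat.le_zero.1 (hcon i)
      omega
    obtain ⟨i, hi⟩ := this
    obtain ⟨j, hj1, hj2⟩ := phi_small _ _ (ht.2 i) hi (hbig i)
    refine ⟨t i j, ⟨c i j, Or.inr (by simp [Gr, adj]), ?_⟩, Or.inl ?_⟩
    · have : ¬ cov h (c i j) := by simpa [ca] using hj1
      exact fun y hy hadj => this ⟨y, hy, hadj⟩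
    · have := sum_le_add (fun i' => phi (ca h i') (cx h i'))
        (fun i' => phi (ca (t i j :: h) i') (cx (t i j :: h) i')) i 0
        (by simp only [ca_t, cx_t]; exact hj2)
        (fun i' hi' => by simp only [ca_t_ne h hi', cx_t_ne h hi'])
      simp only [Phi, hl]
      omega

/-- The lower bound. -/
lemma lower {k : ℕ} (m : ℕ) : ∀ h : List (Vt k),
    (Forces (llLegal (Gr k)) m true h → Phi h ≤ m + 1 ∧ (Tight h → 0 < Phi h → Phi h ≤ m)) ∧
    (Forces (llLegal (Gr k)) m false h → Phi h ≤ m) := by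
  induction m with
  | zero =>
    intro h
    have key : (∀ v, ¬ llLegal (Gr k) h v) → Phi h = 0 := by
      intro hno
      by_contra hne
      obtain ⟨v, hv⟩ := exists_legal_of_Phi_pos h (Nat.pos_of_ne_zero hne)
      exact hno v hv
    constructor
    · intro hf
      have := key hf
      exact ⟨by omega, fun _ _ => by omega⟩
    · intro hf
      have := key hf
      omega
  | succ m ih =>
    intro h
    constructor
    · rintro (hno | ⟨v, hv, hf⟩)
      · have : Phi h = 0 := by
          by_contra hne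
          obtain ⟨v, hv⟩ := exists_legal_of_Phi_pos h (Nat.pos_of_ne_zero hne)
          exact hno v hv
        exact ⟨by omega, fun _ _ => by omega⟩
      · have h1 := (ih (v :: h)).2 hf
        have h2 := Phi_le_add_two h v
        refine ⟨by omega, fun ht _ => ?_⟩
        have h3 := Phi_le_add_one h ht v
        omega
    · intro hf
      by_cases hpos : 0 < Phi h
      · by_cases ht : Tight h
        · obtain ⟨v, hv, hor⟩ := exists_tight_move h ht hpos
          have h1 := (ih (v :: h)).1 (hf v hv)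
          rcases hor with h2 | ⟨h2, h3, h4⟩
          · have := h1.1; omega
          · have := h1.2 h2 h3; omega
        · obtain ⟨v, hv, heq⟩ := exists_harmless h ht
          have h1 := (ih (v :: h)).1 (hf v hv)
          have := h1.1
          omega
      · omega

/-! ### Staller can prolong the LL-domination game -/

lemma Phi_nil (k : ℕ) : Phi ([] : List (Vt k)) = 5 * k + 2 := by
  have h0 : ∀ w : Vt k, ¬ cov [] w := by simp [cov]
  have h1 : ∀ i : Fin k, ca [] i = fun _ => true := fun i => by funext j; simp [ca, h0]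
  have h2 : ∀ i : Fin k, cx [] i = true := fun i => by simp [cx, h0]
  have h3 : pl ([] : List (Vt k)) = 2 := by simp [pl, h0]
  simp only [Phi, h1, h2, h3]
  simp [phi]
  ring

lemma no_isolated {k : ℕ} (v : Vt k) : ∃ w, (Gr k).Adj v w := by
  cases v with
  | u => exact ⟨l, trivial⟩
  | l => exact ⟨u, trivial⟩
  | c i j => exact ⟨t i j, rfl, rfl⟩
  | t i j => exact ⟨u, trivial⟩
  | x i => exact ⟨t i 0, rfl⟩

open Classical in
/-- The number of uncovered vertices in the LL-domination game. -/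
noncomputable def unc {k : ℕ} (h : List (Vt k)) : ℕ :=
  (Finset.univ.filter fun w : Vt k => ¬ ∃ y ∈ h, (Gr k).Adj y w).card

lemma unc_cons_le {k : ℕ} (v : Vt k) (h : List (Vt k)) : unc (v :: h) ≤ unc h := by
  classical
  unfold unc
  apply Finset.card_le_card
  intro w hw
  rw [Finset.mem_filter] at hw ⊢
  exact ⟨hw.1, fun ⟨y, hy, hadj⟩ => hw.2 ⟨y, List.mem_cons_of_mem _ hy, hadj⟩⟩

lemma unc_cons_lt {k : ℕ} {v w : Vt k} {h : List (Vt k)} (hvw : (Gr k).Adj v w)
    (hw : ¬ ∃ y ∈ h, (Gr k).Adj y w) : unc (v :: h) < unc h := by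
  classical
  unfold unc
  apply Finset.card_lt_card
  refine ⟨?_, fun hsub => ?_⟩
  · intro w' hw'
    rw [Finset.mem_filter] at hw' ⊢
    exact ⟨hw'.1, fun ⟨y, hy, hadj⟩ => hw'.2 ⟨y, List.mem_cons_of_mem _ hy, hadj⟩⟩
  · have h1 : w ∈ Finset.univ.filter fun w : Vt k => ¬ ∃ y ∈ h, (Gr k).Adj y w :=
      Finset.mem_filter.2 ⟨Finset.mem_univ _, hw⟩
    have h2 := hsub h1
    rw [Finset.mem_filter] at h2
    exact h2.2 ⟨v, List.mem_cons_self, hvw⟩

/-- Dominator can end the LL-domination game. -/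
lemma ll_ends {k : ℕ} (r : ℕ) : ∀ h : List (Vt k), unc h ≤ r →
    Forces (llLegal (Gr k)) (2 * r) true h := by
  induction r with
  | zero =>
    intro h hr v
    rintro ⟨w, _, hw⟩
    have : 0 < unc h := by
      classical
      unfold unc
      apply Finset.card_pos.2
      exact ⟨w, Finset.mem_filter.2 ⟨Finset.mem_univ _, fun ⟨y, hy, hadj⟩ => hw y hy hadj⟩⟩
    omega
  | succ r ih =>
    intro h hr
    show Forces (llLegal (Gr k)) (2 * r + 1 + 1) true h
    by_cases hno : ∀ v, ¬ llLegal (Gr k) h v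
    · exact Or.inl hno
    · right
      push Not at hno
      obtain ⟨_, w, _, hw⟩ := hno
      obtain ⟨v, hv⟩ := no_isolated w
      have hw' : ¬ ∃ y ∈ h, (Gr k).Adj y w := fun ⟨y, hy, hadj⟩ => hw y hy hadj
      refine ⟨v, ⟨w, Or.inr hv.symm, hw⟩, ?_⟩
      intro v' _
      apply ih
      have h1 := unc_cons_lt hv.symm hw'
      have h2 := unc_cons_le v' (v :: h)
      omega

lemma le_gammaLLg (k : ℕ) : 5 * k + 1 ≤ gammaLLg (Gr k) := by
  have hne : {m | Forces (llLegal (Gr k)) m true []}.Nonempty := ⟨_, ll_ends _ [] le_rfl⟩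
  have hmem := Nat.sInf_mem hne
  have h1 := ((lower _ _).1 hmem).1
  rw [Phi_nil] at h1
  unfold gammaLLg
  omega

/-! ### Dominator's strategy in the Z-domination game -/

/-- `w` lies in the closed neighbourhood of a played vertex. -/
def dom {k : ℕ} (h : List (Vt k)) (w : Vt k) : Prop := ∃ y ∈ h, w = y ∨ adj y w

lemma dom_cons {k : ℕ} (v : Vt k) (h : List (Vt k)) (w : Vt k) :
    dom (v :: h) w ↔ (w = v ∨ adj v w) ∨ dom h w := by
  simp [dom]

lemma zLegal_iff {k : ℕ} (h : List (Vt k)) (v : Vt k) :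
    zLegal (Gr k) h v ↔ ∃ w, adj v w ∧ ¬ dom h w := by
  constructor
  · rintro ⟨w, h1, h2⟩
    exact ⟨w, h1, fun ⟨y, hy, h3⟩ => h2 y hy h3⟩
  · rintro ⟨w, h1, h2⟩
    exact ⟨w, h1, fun y hy h3 => h2 ⟨y, hy, h3⟩⟩

/-- The gadgets in `I` are untouched, all other vertices are dominated. -/
def Good {k : ℕ} (h : List (Vt k)) (I : Finset (Fin k)) : Prop :=
  dom h u ∧ dom h l ∧ (∀ i j, dom h (t i j)) ∧
    (∀ i ∈ I, (∀ j, ¬ dom h (c i j)) ∧ ¬ dom h (x i)) ∧
    (∀ i ∉ I, (∀ j, dom h (c i j)) ∧ dom h (x i))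

lemma fin4a : ∀ a j : Fin 4, j = a ∨ (j = a + 1 ∨ a = j + 1) ∨ j = a + 2 := by decide

lemma fin4b : ∀ a j : Fin 4, j = a ∨ (j = (a + 2) + 1 ∨ a + 2 = j + 1) ∨ j = a + 2 := by decide

lemma fin4c : ∀ a : Fin 4, ¬ (a + 2 = a ∨ (a + 2 = a + 1 ∨ a = a + 2 + 1)) := by decide

lemma fin4d : ∀ a : Fin 4, a + 2 + 1 ≠ a := by decide

/-- After Staller's move in an untouched gadget, Dominator can finish that gadget. -/
lemma good_reply {k : ℕ} {h : List (Vt k)} {I : Finset (Fin k)} (hg : Good h I) {i : Fin k}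
    (hi : i ∈ I) {v : Vt k} (hv : (∃ a, v = c i a) ∨ ∃ a, v = t i a) :
    ∃ v', zLegal (Gr k) (v :: h) v' ∧ Good (v' :: v :: h) (I.erase i) := by
  obtain ⟨h1, h2, h3, h4, h5⟩ := hg
  have hmono : ∀ (y z : Vt k) {w : Vt k}, dom h w → dom (z :: y :: h) w := by
    intro y z w hw
    rw [dom_cons, dom_cons]
    exact Or.inr (Or.inr hw)
  rcases hv with ⟨a, rfl⟩ | ⟨a, rfl⟩
  · refine ⟨t i (a + 2), ?_, hmono _ _ h1, hmono _ _ h2, fun i j => hmono _ _ (h3 i j), ?_, ?_⟩
    · rw [zLegal_iff]
      refine ⟨c i (a + 2), by simp [adj], ?_⟩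
      rw [dom_cons]
      have := fin4c a
      have h6 := (h4 i hi).1 (a + 2)
      simp only [adj, true_and, c.injEq]
      tauto
    · intro i' hi'
      rw [Finset.mem_erase] at hi'
      have h6 := h4 i' hi'.2
      have hne : i ≠ i' := Ne.symm hi'.1
      refine ⟨fun j => ?_, ?_⟩
      · rw [dom_cons, dom_cons]
        simp [adj, hne, h6.1 j, hi'.1]
      · rw [dom_cons, dom_cons]
        simp [adj, hne, h6.2]
    · intro i' hi'
      by_cases hii : i' = i
      · subst hii
        refine ⟨fun j => ?_, ?_⟩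
        · rw [dom_cons, dom_cons]
          have := fin4a a j
          simp only [adj, true_and, c.injEq, reduceCtorEq, false_or]
          tauto
        · rw [dom_cons]
          simp [adj]
      · have h6 := h5 i' (fun hI => hi' (Finset.mem_erase.2 ⟨hii, hI⟩))
        exact ⟨fun j => hmono _ _ (h6.1 j), hmono _ _ h6.2⟩
  · refine ⟨c i (a + 2), ?_, hmono _ _ h1, hmono _ _ h2, fun i j => hmono _ _ (h3 i j), ?_, ?_⟩
    · rw [zLegal_iff]
      refine ⟨c i (a + 2 + 1), by simp [adj], ?_⟩
      rw [dom_cons]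
      have := fin4d a
      have h6 := (h4 i hi).1 (a + 2 + 1)
      simp only [adj, true_and, reduceCtorEq, false_or]
      rintro (h7 | h7)
      · exact this h7.symm
      · exact h6 h7
    · intro i' hi'
      rw [Finset.mem_erase] at hi'
      have h6 := h4 i' hi'.2
      have hne : i ≠ i' := Ne.symm hi'.1
      refine ⟨fun j => ?_, ?_⟩
      · rw [dom_cons, dom_cons]
        simp [adj, hne, h6.1 j, hi'.1]
      · rw [dom_cons, dom_cons]
        simp [adj, hne, h6.2]
    · intro i' hi'
      by_cases hii : i' = i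
      · subst hii
        refine ⟨fun j => ?_, ?_⟩
        · rw [dom_cons, dom_cons]
          have := fin4b a j
          simp only [adj, true_and, c.injEq, reduceCtorEq, false_or]
          tauto
        · rw [dom_cons, dom_cons]
          simp [adj]
      · have h6 := h5 i' (fun hI => hi' (Finset.mem_erase.2 ⟨hii, hI⟩))
        exact ⟨fun j => hmono _ _ (h6.1 j), hmono _ _ h6.2⟩

/-- A legal move in a good position is a move in an untouched gadget. -/
lemma legal_good {k : ℕ} {h : List (Vt k)} {I : Finset (Fin k)} (hg : Good h I) {v : Vt k}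
    (hv : zLegal (Gr k) h v) : ∃ i ∈ I, (∃ a, v = c i a) ∨ ∃ a, v = t i a := by
  obtain ⟨h1, h2, h3, h4, h5⟩ := hg
  rw [zLegal_iff] at hv
  obtain ⟨w, hvw, hw⟩ := hv
  have key : ∀ i, (∃ j, w = c i j) ∨ w = x i → i ∈ I := by
    intro i hwi
    by_contra hI
    rcases hwi with ⟨j, rfl⟩ | rfl
    · exact hw ((h5 i hI).1 j)
    · exact hw (h5 i hI).2
  cases w with
  | u => exact absurd h1 hw
  | l => exact absurd h2 hw
  | t i j => exact absurd (h3 i j) hw
  | c i j =>
    refine ⟨i, key i (Or.inl ⟨j, rfl⟩), ?_⟩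
    cases v <;> simp_all [adj]
  | x i =>
    refine ⟨i, key i (Or.inr rfl), ?_⟩
    cases v <;> simp_all [adj]

lemma z_upper {k : ℕ} (r : ℕ) : ∀ (h : List (Vt k)) (I : Finset (Fin k)), I.card = r → Good h I →
    Forces (zLegal (Gr k)) (2 * r) false h := by
  induction r with
  | zero =>
    intro h I hI hg v hv
    obtain ⟨i, hi, _⟩ := legal_good hg hv
    rw [Finset.card_eq_zero] at hI
    subst hI
    exact absurd hi (Finset.notMem_empty i)
  | succ r ih =>
    intro h I hI hg
    show Forces (zLegal (Gr k)) (2 * r + 1 + 1) false h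
    intro v hv
    obtain ⟨i, hi, hor⟩ := legal_good hg hv
    obtain ⟨v', hv', hg'⟩ := good_reply hg hi hor
    refine Or.inr ⟨v', hv', ih _ (I.erase i) ?_ hg'⟩
    rw [Finset.card_erase_of_mem hi, hI]
    rfl

lemma z_forces (k : ℕ) : Forces (zLegal (Gr k)) (2 * k + 1) true [] := by
  right
  refine ⟨u, ?_, z_upper k [u] Finset.univ (by simp) ⟨?_, ?_, ?_, ?_, ?_⟩⟩
  · rw [zLegal_iff]
    exact ⟨l, trivial, by simp [dom]⟩
  · simp [dom]
  · simp [dom, adj]
  · simp [dom, adj]
  · intro i _
    simp [dom, adj]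
  · intro i hi
    exact absurd (Finset.mem_univ i) hi

lemma gammaZg_bounds (k : ℕ) : 1 ≤ gammaZg (Gr k) ∧ gammaZg (Gr k) ≤ 2 * k + 1 := by
  have hne : {m | Forces (zLegal (Gr k)) m true []}.Nonempty := ⟨2 * k + 1, z_forces k⟩
  refine ⟨?_, Nat.sInf_le (z_forces k)⟩
  by_contra hcon
  have h0 : gammaZg (Gr k) = 0 := by omega
  have hmem := Nat.sInf_mem hne
  unfold gammaZg at h0
  rw [h0] at hmem
  refine hmem u ?_
  rw [zLegal_iff]
  exact ⟨l, trivial, by simp [dom]⟩

lemma connected (k : ℕ) : (Gr k).Connected := by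
  have key : ∀ v : Vt k, (Gr k).Reachable u v := by
    have ht : ∀ i j, (Gr k).Reachable u (t i j) := fun i j =>
      SimpleGraph.Adj.reachable (show (Gr k).Adj u (t i j) from trivial)
    intro v
    cases v with
    | u => exact SimpleGraph.Reachable.refl _
    | l =>
      have h1 : (Gr k).Adj u l := trivial
      exact h1.reachable
    | c i j =>
      have h1 : (Gr k).Adj (t i j) (c i j) := ⟨rfl, rfl⟩
      exact (ht i j).trans h1.reachable
    | t i j => exact ht i j
    | x i =>
      have h1 : (Gr k).Adj (t i 0) (x i) := rfl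
      exact (ht i 0).trans h1.reachable
  have : Nonempty (Vt k) := ⟨u⟩
  exact ⟨fun a b => (key a).symm.trans (key b)⟩

theorem main (k : ℕ) : ∃ (V : Type) (_ : Fintype V) (G : SimpleGraph V),
    G.Connected ∧ (∀ v, ∃ w, G.Adj v w) ∧
      1 ≤ gammaZg G ∧ gammaZg G ≤ 2 * k + 1 ∧ 5 * k + 1 ≤ gammaLLg G :=
  ⟨Vt k, inferInstance, Gr k, connected k, no_isolated, (gammaZg_bounds k).1, (gammaZg_bounds k).2,
    le_gammaLLg k⟩

end Pool.H44.ZLL
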